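import Pool.Agent.Lib_helper58.CF.Main

/-!
# MP_45e720_ag: manifolds fibred in curves over complex tori

`X` is a projective manifold of any dimension such that the line bundle `O(1)` on the bundle of
tangent 2-planes is ample (`PlaneAmple`; if `X` is a surface, then this says that the canonical
bundle is ample, and for surfaces this is the only open case of Lang's question).

The theorem. (1) Suppose that some finite unramified covering of `X` (for instance `X` itself) has a
holomorphic map to a complex torus all of whose fibres have dimension at most one
(`VirtuallyFibredInCurves`). Then `X` is Kobayashi hyperbolic if and only if all holomorphic maps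
from complex tori to `X` are constant, and it suffices that all holomorphic maps from elliptic
curves to `X` are constant. (2) Let `φ` be a holomorphic map from `X` to a complex torus with fibres
of dimension at most one. There is a set `𝒢` of immersed elliptic curves `g : ℂ → X` such that every
nonconstant entire curve `f : ℂ → X` factors through one of them, `f = g ∘ P` with `P` entire, or
some affine reparametrisations of `f` converge to a nonconstant curve in a rational or elliptic
curve which is contained in a fibre of `φ`. If the fibres of `φ` contain no rational and no elliptic
curves, then (so the second alternative does not occur and) `𝒢` is finite, and the following are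
equivalent for every point `x`: `X` is hyperbolic at `x`; all entire curves through `x` are
constant; all holomorphic maps from complex tori to `X` whose image contains `x` are constant; `x`
is in no `g (ℂ)`.

If the fibres have dimension zero (maximal Albanese dimension), then this is known (Bloch, Ochiai,
Kawamata, Noguchi, Winkelmann, Yamanoi). New is the case of one-dimensional fibres; for surfaces
this is the case of irregularity one. Example: a smooth divisor `X` of large degree in `A × ℙ²`, `A`
an elliptic curve, is a surface with ample canonical bundle and irregularity one; the fibres of
`X → A` are plane curves.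

Idea of the proof. By the theorem on hyperbolicity modulo tori (`SL.main_thm`; it uses the rigidity of
immersed Brody curves) it suffices to consider a nonconstant Brody curve `h` on which all invariant
jet differentials vanish. It is contained in a fibre `Z` of `φ`. Let `S` be the finite set of
singular points of `Z`, `C` the component of `Z \ S` which contains `h (z)` for `h (z) ∉ S`, and `ι`
the embedding of `X` into a projective space. Choose a linear form `s` which vanishes at no point of
`S` and not on `h (ℂ)`; it has finitely many zeros on `C`, since the closure of `C` is compact. Choose
linear forms `l_y` which vanish at the points `y` of `S`, but not on `h (ℂ)`. For a form `P` of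
degree `d` in three of the homogeneous coordinates let `w = P ∏ l_y / s ^ (d + m)`, `m` the number
of the points of `S`. If `P` vanishes to an order greater than `μ (d + m)` along `C` at the zeros
of `s` (of order `μ`), and at one more point of `C`, then `w` is continuous on the closure of `C`,
zero at `S` and holomorphic on `C`, so zero by the maximum principle. These are `O(d)` linear
conditions on the `(d + 1) (d + 2) / 2` coefficients of `P`, so for large `d` there is a form `P ≠ 0`
which vanishes along `h`. By the plane theorem (a Brody curve of transcendence degree one is doubly
periodic or rational) there is a nonconstant holomorphic map from an elliptic curve to `X` whose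
image contains `h (ℂ)`; by the identity theorem its image is contained in `Z`.
-/

set_option autoImplicit false

open scoped Manifold ContDiff

namespace Pool.Agent.Results.MP_45e720_ag.CurveFibrations

open Pool.Agent Pool.Agent.BrodyRigid Pool.Agent.StrongLang Pool.Agent.CurveFibres

theorem result (E X : Type) [NormedAddCommGroup E] [NormedSpace ℂ E] [FiniteDimensional ℂ E]
    [TopologicalSpace X] [CompactSpace X] [T2Space X] [ConnectedSpace X] [ChartedSpace E X]
    [IsManifold 𝓘(ℂ, E) ω X] (hP : SS.IsProjective E X) (hX : PlaneAmple E X) :
    (VirtuallyFibredInCurves E X →
      List.TFAE [NoEllipticMaps E X, SS.NoTorusMaps E X, SS.BrodyHyperbolic E X,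
        ∀ x : X, HyperbolicAt E x]) ∧
    ∀ (W : Type) [NormedAddCommGroup W] [NormedSpace ℂ W] [FiniteDimensional ℂ W]
      (Γ : Submodule ℤ W) [DiscreteTopology Γ] (φ : X → W ⧸ Γ), IsTorusValued E Γ φ →
      HasCurveFibres E φ →
      ∃ 𝒢 : Set (ℂ → X), (∀ g ∈ 𝒢, IsTorusImmersion E g) ∧
        (∀ f : ℂ → X, MDifferentiable 𝓘(ℂ, ℂ) 𝓘(ℂ, E) f → (∃ z z', f z ≠ f z') →
          (∃ g ∈ 𝒢, ∃ P : ℂ → ℂ, Differentiable ℂ P ∧ ∀ z, f z = g (P z)) ∨
          ∃ h g : ℂ → X, IsReparamLimit f h ∧ (∃ z z', h z ≠ h z') ∧
            Set.range h ⊆ Set.range g ∧ MDifferentiable 𝓘(ℂ, ℂ) 𝓘(ℂ, E) g ∧ DoublyPeriodic g ∧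
            ∀ z z', φ (g z) = φ (g z')) ∧
        ((∀ g : ℂ → X, MDifferentiable 𝓘(ℂ, ℂ) 𝓘(ℂ, E) g → DoublyPeriodic g →
            (∀ z z', φ (g z) = φ (g z')) → ∀ z z', g z = g z') →
          𝒢.Finite ∧
          ∀ x : X, List.TFAE [HyperbolicAt E x, EntireConstantAt E x, TorusConstantAt E x,
            ∀ g ∈ 𝒢, x ∉ Set.range g]) := by
  obtain ⟨N, ι, -, hι⟩ := hP
  exact ⟨CF.fibred_main hX hι, fun W _ _ _ Γ _ φ hφ hF => CF.strong_form hX hι hφ hF⟩

end Pool.Agent.Results.MP_45e720_ag.CurveFibrations
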