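import Pool.Agent.Lib_helper58.MBS.L.FTOP

/-!
# MP_45e720_ag: minimal sets of Brody curves in surfaces are algebraic

`X` is a compact connected complex surface with ample canonical bundle (`CanonicalAmple`), which
carries a nonzero invariant jet differential of some order and positive weight
(`HasInvariantJetDifferential`). By a theorem of Green and Griffiths all surfaces of general type
have such a jet differential, so that the second hypothesis follows from the first; if
`c₁² > c₂`, then there are even symmetric differentials (jet differentials of order one). This
theorem is not formalised here: the existence of the jet differential is a hypothesis on `X`.

The theorem. Let `f : ℂ → X` be a Brody curve (its derivative is bounded) which is uniformly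
nonconstant: no limit of translates `z ↦ f (z + z_n)` of `f` is a constant curve. Then some limit
`g` of translates of `f` is a nonconstant Brody curve whose image is compact: `g (ℂ)` is the image
of a closed disc. (So `g (ℂ)` is a compact analytic curve which is the image of `ℂ`: a rational or
an elliptic curve, and `X` receives a nonconstant map from a complex torus.) Equivalently: if no
nonconstant entire curve in `X` has a compact image, then every Brody curve in `X` is nearly
constant on arbitrarily large discs.

Idea of the proof. Let `M` be a minimal closed translation invariant set of limits of translates of
`f`. The value of an invariant jet differential `P` on the jets of a Brody curve is a bounded entire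
function, so it is a constant. If the constant is not zero, then the curves of `M` are uniformly
immersed, and they are doubly periodic by the theorem `BrodyRigidity`. If `P` vanishes on the curves
of `M`, then we take the derivatives of `P` in the direction of the highest derivatives until one
of them does not vanish identically along the curves of `M`, and obtain that all curves of `M`
satisfy a common regular differential equation off a countable closed set of points. It follows
that two curves of `M` which are near to each other near a point are near to each other near all
other points (up to a change of the time), with constants that depend only on the distance of
the points. Suppose that a stable curve `f₀` in `M` (a point of continuity of the critical points)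
is a limit of curves `h_n` in `M` whose images are different. The linearised displacement of the
curves `h_n` from `f₀`, together with the velocity of `f₀`, gives a plane in the tangent space, and
the pluricanonical forms on this plane give an entire vector valued function `σ` of exponential
growth: at the critical points of `f₀` the displacement has a pole, but the order of the pole is
less than the order of the zero of the velocity. Since the canonical bundle is positive, the
Laplacian of `log ‖σ‖` is positive, uniformly on discs of a fixed radius, because `f₀` is
uniformly nonconstant; so `log ‖σ‖` grows like `|z| ^ 2`, a contradiction. Hence the curves of `M`
near `f₀` have the same image near `0` as `f₀`; by minimality and the differential equation this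
holds near each curve of `M`, and so the image of one disc is the image of `ℂ`.
-/

open scoped Manifold ContDiff

namespace Pool.Agent.Results.MP_45e720_ag.MinimalBrodySets

open Pool.Agent Pool.Agent.BrodyRigid Pool.Agent.MinBrody

theorem result (E X : Type) [NormedAddCommGroup E] [NormedSpace ℂ E] [FiniteDimensional ℂ E]
    [TopologicalSpace X] [CompactSpace X] [T2Space X] [ConnectedSpace X] [ChartedSpace E X]
    [IsManifold 𝓘(ℂ, E) ω X] (hX : CanonicalAmple E X) (hJ : HasInvariantJetDifferential E X)
    (f : ℂ → X) (hf : IsBrodyCurve (E := E) f) (hnc : UniformlyNonconstant f) :
    ∃ g : ℂ → X, IsTranslateLimit f g ∧ IsBrodyCurve (E := E) g ∧ (∃ z z', g z ≠ g z') ∧
      HasCompactImage g :=
  MBS.main_thm hX hJ f hf hnc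

end Pool.Agent.Results.MP_45e720_ag.MinimalBrodySets
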